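import Pool.Agent.Q78.CycF.Main

/-! The group of interval exchanges with flips over a virtually infinite cyclic group is not
stably realizable. -/

namespace Pool.Agent.Results.MP_ad338c_an.NotStablyRealizable

universe u

/-- Let `Λ` be a subgroup of the circle with an element of infinite order, e.g. a virtually
infinite cyclic one. A subgroup `Γ` of `PC(S)` containing all classes of interval exchanges with
flips with breakpoints and translation parts in `Λ` (e.g. the group of these classes itself) is
neither realizable nor stably realizable. -/
theorem result (Λ : AddSubgroup Q78.PCB.S) (hΛ : ∃ a ∈ Λ, addOrderOf a = 0)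
    (Γ : Subgroup Q78.PCB.PCBow) (hΓ : Q78.CycF.IETB Λ ⊆ (Γ : Set Q78.PCB.PCBow)) :
    ¬ Q78.PCB.Realizable Γ ∧ ¬ Q78.CycF.StablyRealizable.{u} Γ :=
  Q78.CycF.main Λ hΛ Γ hΓ

end Pool.Agent.Results.MP_ad338c_an.NotStablyRealizable
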